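import Pool.Agent.Helper93_GEN.Names

/-!
# General forcing library, part 2: mixing, maximum principle, pairs
-/

open Set

namespace Pool.Agent.GF

open Pool.Agent.FL (BSet beq bmem Fml nn sb om IsZFC IsNum OmegaStd Codes IsDenseEmb A1Stmt A3Stmt)

section
variable {B : Type} [CompleteBooleanAlgebra B]

/-- Components of a name. -/
def bty : BSet B → Type | .mk α _ _ => α
def bfam : (x : BSet B) → bty x → BSet B | .mk _ A _ => A
def bval : (x : BSet B) → bty x → B | .mk _ _ b => b

/-- Mixing of names. -/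
def mix {ι : Type} (x : ι → BSet B) (c : ι → B) : BSet B :=
  .mk (Σ i, bty (x i)) (fun t => bfam (x t.1) t.2) (fun t => c t.1 ⊓ bval (x t.1) t.2)

theorem le_beq_mix (h1 : A1Stmt) {ι : Type} (x : ι → BSet B) (c : ι → B)
    (hc : ∀ i j, i ≠ j → c i ⊓ c j = ⊥) (i : ι) : c i ≤ beq (mix x c) (x i) := by
  have hr := (h1 B).1
  unfold mix
  generalize hy : x i = y
  cases y with
  | mk α A b =>
    rw [beq]
    refine le_inf (le_iInf ?_) (le_iInf ?_)
    · rintro ⟨j, t⟩
      rw [le_himp_iff]
      by_cases hij : j = i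
      · subst hij
        have : ∃ j', bval (x j) t ≤ b j' ⊓ beq (bfam (x j) t) (A j') := by
          revert t
          rw [hy]
          intro t
          exact ⟨t, by simp [bval, bfam, hr]⟩
        obtain ⟨j', hj'⟩ := this
        exact (inf_le_right.trans inf_le_right).trans (hj'.trans (le_iSup (fun j' => b j' ⊓
          beq (bfam (x j) t) (A j')) j'))
      · have : c i ⊓ (c j ⊓ bval (x j) t) ≤ ⊥ := by
          rw [← inf_assoc, hc i j (Ne.symm hij)]
          simp
        exact this.trans bot_le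
    · intro j'
      rw [le_himp_iff]
      have : ∃ t : bty (x i), b j' ≤ bval (x i) t ⊓ beq (bfam (x i) t) (A j') := by
        rw [hy]
        exact ⟨j', by simp [bval, bfam, hr]⟩
      obtain ⟨t, ht⟩ := this
      refine le_trans ?_ (le_iSup (fun t : Σ i, bty (x i) => c t.1 ⊓ bval (x t.1) t.2 ⊓
        beq (bfam (x t.1) t.2) (A j')) ⟨i, t⟩)
      simp only [inf_assoc]
      exact le_inf inf_le_left (inf_le_right.trans ht)

/-- Disjointification. -/
theorem exists_disj {ι : Type} (f : ι → B) : ∃ c : ι → B, (∀ i, c i ≤ f i) ∧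
    (∀ i j, i ≠ j → c i ⊓ c j = ⊥) ∧ (⨆ i, c i) = ⨆ i, f i := by
  obtain ⟨r, hr⟩ := exists_wellFoundedLT ι
  let c : ι → B := fun i => f i ⊓ (⨆ j : {j // j < i}, f j.1)ᶜ
  have hlt : ∀ i j, i < j → c i ⊓ c j = ⊥ := by
    intro i j hij
    have h1 : c i ≤ ⨆ k : {k // k < j}, f k.1 :=
      inf_le_left.trans (le_iSup (fun k : {k // k < j} => f k.1) ⟨i, hij⟩)
    have h2 : c j ≤ (⨆ k : {k // k < j}, f k.1)ᶜ := inf_le_right
    exact le_bot_iff.1 ((inf_le_inf h1 h2).trans (inf_compl_self _).le)
  refine ⟨c, fun i => inf_le_left, ?_, ?_⟩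
  · intro i j hij
    rcases lt_or_gt_of_ne hij with h | h
    · exact hlt i j h
    · rw [inf_comm]; exact hlt j i h
  · apply le_antisymm
    · exact iSup_mono fun i => inf_le_left
    · refine iSup_le ?_
      intro i
      induction i using WellFoundedLT.induction with
      | ind i ih =>
        have h1 : (⨆ j : {j // j < i}, f j.1) ≤ ⨆ i, c i := iSup_le fun j => ih j.1 j.2
        have h2 : f i ≤ c i ⊔ ⨆ j : {j // j < i}, f j.1 := by
          have : f i ≤ f i ⊓ (⨆ j : {j // j < i}, f j.1)ᶜ ⊔ ⨆ j : {j // j < i}, f j.1 := by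
            rw [sup_inf_right]
            simp
          exact this
        exact h2.trans (sup_le (le_iSup c i) h1)

/-- Maximum principle. -/
theorem exists_max (h1 : A1Stmt) (f : BSet B → B) (hf : ∀ a a', beq a a' ⊓ f a ≤ f a') :
    ∃ x, f x = ⨆ a, f a := by
  classical
  let ι : Type := Set.range f
  let x : ι → BSet B := fun i => i.2.choose
  have hx : ∀ i : ι, f (x i) = i.1 := fun i => i.2.choose_spec
  obtain ⟨c, hc1, hc2, hc3⟩ := exists_disj (fun i : ι => i.1)
  refine ⟨mix x c, le_antisymm (le_iSup f _) ?_⟩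
  have h2 : (⨆ a, f a) = ⨆ i : ι, i.1 := by
    apply le_antisymm
    · exact iSup_le fun a => le_iSup (fun i : ι => i.1) ⟨f a, a, rfl⟩
    · refine iSup_le fun i => ?_
      rw [← hx i]
      exact le_iSup f _
  rw [h2, ← hc3]
  refine iSup_le fun i => ?_
  refine le_trans ?_ (hf (x i) (mix x c))
  refine le_inf ?_ ?_
  · rw [(h1 B).2.1]
    exact le_beq_mix h1 x c hc2 i
  · rw [hx]; exact hc1 i

/-- The unordered pair. -/
def upair (a b : BSet B) : BSet B := .mk Bool (fun t => if t then a else b) (fun _ => ⊤)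

theorem bmem_upair (d a b : BSet B) : bmem d (upair a b) = beq d a ⊔ beq d b := by
  unfold upair
  rw [bmem]
  apply le_antisymm
  · refine iSup_le ?_
    intro t
    cases t
    · simp
    · simp
  · refine sup_le ?_ ?_
    · exact le_trans (by simp) (le_iSup (fun t : Bool => (⊤ : B) ⊓
        beq d (if t then a else b)) true)
    · exact le_trans (by simp) (le_iSup (fun t : Bool => (⊤ : B) ⊓
        beq d (if t then a else b)) false)

/-- The ordered pair. -/
def opair (a b : BSet B) : BSet B := upair (upair a a) (upair a b)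

theorem beq_upair (h1 : A1Stmt) (a a' b b' : BSet B) :
    beq a a' ⊓ beq b b' ≤ beq (upair a b) (upair a' b') := by
  obtain ⟨a1, a2, a3, a4, a5, -, a7, -⟩ := h1 B
  refine le_trans ?_ (a7 _ _)
  refine le_iInf fun c => le_inf ?_ ?_
  · rw [le_himp_iff, bmem_upair, bmem_upair, inf_sup_left]
    refine sup_le ?_ ?_
    · refine le_trans ?_ le_sup_left
      refine le_trans ?_ (a3 c a a')
      exact le_inf inf_le_right (inf_le_left.trans inf_le_left)
    · refine le_trans ?_ le_sup_right
      refine le_trans ?_ (a3 c b b')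
      exact le_inf inf_le_right (inf_le_left.trans inf_le_right)
  · rw [le_himp_iff, bmem_upair, bmem_upair, inf_sup_left]
    refine sup_le ?_ ?_
    · refine le_trans ?_ le_sup_left
      refine le_trans ?_ (a3 c a' a)
      rw [a2 a' a]
      exact le_inf inf_le_right (inf_le_left.trans inf_le_left)
    · refine le_trans ?_ le_sup_right
      refine le_trans ?_ (a3 c b' b)
      rw [a2 b' b]
      exact le_inf inf_le_right (inf_le_left.trans inf_le_right)

theorem beq_opair (h1 : A1Stmt) (a a' b b' : BSet B) :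
    beq a a' ⊓ beq b b' ≤ beq (opair a b) (opair a' b') := by
  unfold opair
  refine le_trans ?_ (beq_upair h1 _ _ _ _)
  refine le_inf (le_trans ?_ (beq_upair h1 _ _ _ _)) (beq_upair h1 _ _ _ _)
  exact le_inf inf_le_left inf_le_left

/-- The name of a set given by a family of names. -/
def setN {ι : Type} (A : ι → BSet B) : BSet B := .mk ι A (fun _ => ⊤)

theorem bmem_setN (x : BSet B) {ι : Type} (A : ι → BSet B) :
    bmem x (setN A) = ⨆ i, beq x (A i) := by
  unfold setN
  rw [bmem]
  simp

/-- Small or large: a name is contained in a given number of names below some condition, or has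
pairwise different elements indexed by the well order `K`. -/
theorem small_or_large (h1 : A1Stmt) {P : Type} [Preorder P] {io : P → B} (hio : IsDenseEmb io)
    {K : Type} [LinearOrder K] [WellFoundedLT K] (J : Type)
    (hJ : ∀ b : K, ∃ g : J → Option {a : K // a < b}, ∀ a, ∃ j, g j = some a)
    (F : BSet B) (p : P) :
    (∃ e ≤ p, ∃ A : J → BSet B, io e ≤ ⨅ x : BSet B, (bmem x F ⇨ ⨆ j, beq x (A j))) ∨
    ∃ A : K → BSet B, (∀ b, io p ≤ bmem (A b) F) ∧ ∀ b b', b ≠ b' → io p ≤ (beq (A b) (A b'))ᶜ := by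
  classical
  obtain ⟨a1, a2, a3, a4, a5, -, a7, -⟩ := h1 B
  by_cases hsm : ∃ e ≤ p, ∃ A : J → BSet B, io e ≤ ⨅ x : BSet B, (bmem x F ⇨ ⨆ j, beq x (A j))
  · exact Or.inl hsm
  right
  push Not at hsm
  -- one step
  have step : ∀ (b : K) (A : {a : K // a < b} → BSet B), ∃ x : BSet B, io p ≤ bmem x F ∧
      ∀ a, io p ≤ (beq x (A a))ᶜ := by
    intro b A
    let φ : BSet B → B := fun x => bmem x F ⊓ ⨅ a, (beq x (A a))ᶜ
    have hφ : ∀ x x', beq x x' ⊓ φ x ≤ φ x' := by
      intro x x'
      refine le_inf ?_ (le_iInf fun a => ?_)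
      · exact (inf_le_inf_left _ inf_le_left).trans (a4 x x' F)
      · rw [le_compl_iff_disjoint_right, disjoint_iff, ← le_bot_iff]
        have h2 : beq x x' ⊓ beq x' (A a) ≤ beq x (A a) := a3 _ _ _
        have h3 : beq x x' ⊓ φ x ⊓ beq x' (A a) ≤ beq x (A a) :=
          le_trans (le_inf (inf_le_left.trans inf_le_left) inf_le_right) h2
        have h4 : beq x x' ⊓ φ x ⊓ beq x' (A a) ≤ (beq x (A a))ᶜ :=
          inf_le_left.trans (inf_le_right.trans (inf_le_right.trans (iInf_le _ a)))
        exact (le_inf h3 h4).trans (inf_compl_self _).le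
    obtain ⟨x, hx⟩ := exists_max h1 φ hφ
    have hp : io p ≤ ⨆ x, φ x := by
      by_contra hcon
      -- find a condition below p forcing that F is contained in the A a
      have h5 : (⨆ x, φ x)ᶜ ⊓ io p ≠ ⊥ := by
        intro h6
        apply hcon
        rw [inf_comm] at h6
        exact disjoint_compl_right_iff.1 (disjoint_iff.2 h6)
      obtain ⟨e, he, h7⟩ := hio.dense _ _ h5
      obtain ⟨g, hg⟩ := hJ b
      -- all members are equal to some A a
      refine hsm e he (fun j => match g j with | some a => A a | none => F) ?_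
      refine le_iInf fun x => ?_
      rw [le_himp_iff]
      have h8 : io e ⊓ bmem x F ≤ ⨆ a, beq x (A a) := by
        rw [← compl_compl (⨆ a, beq x (A a)), le_compl_iff_disjoint_right, disjoint_iff,
          compl_iSup, ← le_bot_iff]
        have h9 : io e ⊓ bmem x F ⊓ ⨅ a, (beq x (A a))ᶜ ≤ φ x :=
          le_inf (inf_le_left.trans inf_le_right) inf_le_right
        have h10 : io e ⊓ bmem x F ⊓ ⨅ a, (beq x (A a))ᶜ ≤ (⨆ x, φ x)ᶜ :=
          inf_le_left.trans (inf_le_left.trans h7)
        exact (le_inf (h9.trans (le_iSup φ x)) h10).trans (inf_compl_self _).le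
      refine h8.trans (iSup_le fun a => ?_)
      obtain ⟨j, hj⟩ := hg a
      refine le_trans ?_ (le_iSup _ j)
      simp only [hj]
      exact le_rfl
    rw [← hx] at hp
    exact ⟨x, hp.trans inf_le_left, fun a => hp.trans (inf_le_right.trans (iInf_le _ a))⟩
  let A : K → BSet B := (wellFounded_lt (α := K)).fix fun b ih =>
    (step b (fun a => ih a.1 a.2)).choose
  have hA : ∀ b, A b = (step b (fun a => A a.1)).choose := fun b =>
    (wellFounded_lt (α := K)).fix_eq _ b
  have hA1 : ∀ b, io p ≤ bmem (A b) F := by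
    intro b
    rw [hA b]
    exact (step b _).choose_spec.1
  have hA2 : ∀ b a, a < b → io p ≤ (beq (A b) (A a))ᶜ := by
    intro b a hab
    have h := (step b (fun a => A a.1)).choose_spec.2 ⟨a, hab⟩
    rw [← hA b] at h
    exact h
  refine ⟨A, hA1, ?_⟩
  intro b b' hbb
  rcases lt_or_gt_of_ne hbb with h | h
  · rw [a2]; exact hA2 b' b h
  · exact hA2 b b' h

end

end Pool.Agent.GF
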