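import Pool.Agent.Helper93_FL.FmlFacts
import Pool.Agent.Helper93_GEN.Full

/-!
# General forcing library, part 3: the countable hull and the model
-/

set_option linter.unusedSectionVars false

open MeasureTheory Set

namespace Pool.Agent.GF

open Pool.Agent.FL (BSet beq bmem Fml nn sb om IsZFC IsNum OmegaStd Codes IsDenseEmb A1Stmt A3Stmt
  ModelStatement)
open FL.H25 (le_iff_dense le_compl_iff_forall exists_decide)

/-- Objects entering the countable hull; `X` is a type of extra objects. -/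
inductive Obj (B P Z : Type) (X : Type 1) : Type 1
  | nm (a : BSet B) : Obj B P Z X
  | cd (p : P) : Obj B P Z X
  | sf (S : Z → Set ℕ) : Obj B P Z X
  | ms (A : Set Z) : Obj B P Z X
  | fm (φ : Fml) : Obj B P Z X
  | nt (n : ℕ) : Obj B P Z X
  | ex (x : X) : Obj B P Z X

section
variable {P : Type} [Preorder P] {Z : Type} [MeasurableSpace Z] {X : Type 1}
variable {B : Type} [CompleteBooleanAlgebra B]

/-- The assignment given by a list of objects. -/
noncomputable def asg (l : List (Obj B P Z X)) : ℕ → BSet B := fun i =>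
  match l[i]? with
  | some (.nm a) => a
  | _ => om B

/-- `a` is a set of natural numbers. -/
noncomputable def subOm (a : BSet B) : B := ⨅ x : BSet B, (bmem x a ⇨ bmem x (om B))

/-- The basic dense sets. -/
noncomputable def btask (rb : P → Set Z) (io : P → B) : ℕ → List (Obj B P Z X) → Set P
  | 0, .fm φ :: l => {d | io d ≤ φ.val (asg l) ∨ io d ≤ (φ.val (asg l))ᶜ}
  | 1, .fm φ :: .nt i :: l => {d | io d ≤ (⨆ a : BSet B, φ.val (Function.update (asg l) i a))ᶜ ∨
      ∃ a : BSet B, io d ≤ φ.val (Function.update (asg l) i a)}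
  | 2, [.nm a] => {d | io d ≤ (bmem a (om B))ᶜ ∨ ∃ n, io d ≤ beq a (nn B n)}
  | 3, [.cd d1, .cd d2] => {e | (e ≤ d1 ∧ e ≤ d2) ∨ rb e ⊆ (rb d1)ᶜ ∨ rb e ⊆ (rb d2)ᶜ}
  | 4, [.ms A] => {d | MeasurableSet A → rb d ⊆ A ∨ rb d ⊆ Aᶜ}
  | 5, [.nm a] => {e | (∃ S : Z → Set ℕ, Measurable S ∧ io e ≤ beq a (codeN rb io S)) ∨
      io e ≤ (subOm a)ᶜ}
  | _, _ => Set.univ

open Classical in
/-- The basic operations of the hull. -/
noncomputable def boper (rb : P → Set Z) (io : P → B) : ℕ → List (Obj B P Z X) → Obj B P Z X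
  | 0, [.sf S] => .nm (codeN rb io S)
  | 1, .cd d :: .fm φ :: .nt i :: l =>
    if h : ∃ a : BSet B, io d ≤ φ.val (Function.update (asg l) i a) then .nm h.choose else .nt 0
  | 2, [.cd e, .nm a] =>
    if h : ∃ S : Z → Set ℕ, Measurable S ∧ io e ≤ beq a (codeN rb io S) then .sf h.choose
    else .nt 0
  | 3, [.sf S, .nt n] => .ms {y | n ∈ S y}
  | 4, [.nm a, .nm b] => .nm (upair a b)
  | _, _ => .nt 0

/-- All the operations: the even ones are the basic ones. -/
noncomputable def oper (rb : P → Set Z) (io : P → B)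
    (xop : ℕ → List (Obj B P Z X) → Obj B P Z X) (i : ℕ) (l : List (Obj B P Z X)) :
    Obj B P Z X :=
  if i % 2 = 0 then boper rb io (i / 2) l else xop (i / 2) l

/-- All the dense sets. -/
noncomputable def task (rb : P → Set Z) (io : P → B)
    (xtask : ℕ → List (Obj B P Z X) → Set P) (i : ℕ) (l : List (Obj B P Z X)) : Set P :=
  if i % 2 = 0 then btask rb io (i / 2) l else xtask (i / 2) l

variable {rb : P → Set Z} {io : P → B}

theorem btask_open (hP : IsPF rb) (hio : IsDenseEmb io) (i : ℕ) (l : List (Obj B P Z X)) :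
    ∀ d ∈ btask rb io i l, ∀ e ≤ d, e ∈ btask rb io i l := by
  intro d hd e he
  have hm := hio.mono _ _ he
  have hb := hP.mono he
  unfold btask at hd ⊢
  split at hd
  · rcases hd with hd | hd
    · exact Or.inl (hm.trans hd)
    · exact Or.inr (hm.trans hd)
  · rcases hd with hd | ⟨a, hd⟩
    · exact Or.inl (hm.trans hd)
    · exact Or.inr ⟨a, hm.trans hd⟩
  · rcases hd with hd | ⟨a, hd⟩
    · exact Or.inl (hm.trans hd)
    · exact Or.inr ⟨a, hm.trans hd⟩
  · rcases hd with ⟨h1, h2⟩ | hd | hd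
    · exact Or.inl ⟨he.trans h1, he.trans h2⟩
    · exact Or.inr (Or.inl (Set.Subset.trans hb hd))
    · exact Or.inr (Or.inr (Set.Subset.trans hb hd))
  · intro hA
    rcases hd hA with hd | hd
    · exact Or.inl (Set.Subset.trans hb hd)
    · exact Or.inr (Set.Subset.trans hb hd)
  · rcases hd with ⟨S, hS, hd⟩ | hd
    · exact Or.inl ⟨S, hS, hm.trans hd⟩
    · exact Or.inr (hm.trans hd)
  · exact Set.mem_univ _

theorem btask_dense (hP : IsPF rb) (hD : Dec rb) (hBR : BR rb) (hA1 : A1Stmt) (hA3 : A3Stmt)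
    (hio : IsDenseEmb io) (i : ℕ) (l : List (Obj B P Z X)) :
    ∀ q, ∃ d ∈ btask rb io i l, d ≤ q := by
  intro q
  unfold btask
  split
  · obtain ⟨d, hd, h⟩ := exists_decide hio q _
    exact ⟨d, h, hd⟩
  · rename_i φ i l
    by_cases h : ∃ d ≤ q, ∃ a : BSet B, io d ≤ φ.val (Function.update (asg l) i a)
    · obtain ⟨d, hd, a, ha⟩ := h
      exact ⟨d, Or.inr ⟨a, ha⟩, hd⟩
    · refine ⟨q, Or.inl ?_, le_rfl⟩
      push Not at h
      rw [le_compl_iff_forall hio]
      intro d hd hle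
      obtain ⟨e, he, a, hea⟩ := dense_iSup hio _ hle
      exact h e (he.trans hd) a hea
  · rename_i a
    obtain ⟨d, hd, h⟩ := exists_decide hio q (bmem a (om B))
    rcases h with h | h
    · have h11 := (hA3 B).2.2.2.2 (fun _ => ⊤) a
      change bmem a (om B) = _ at h11
      rw [h11] at h
      obtain ⟨e, he, n, hn⟩ := dense_iSup hio _ h
      exact ⟨e, Or.inr ⟨n, hn.trans inf_le_right⟩, he.trans hd⟩
    · exact ⟨d, Or.inl h, hd⟩
  · rename_i d1 d2
    obtain ⟨e, he, h⟩ := hD q (rb d1) (hP.meas d1)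
    obtain ⟨e', he', h'⟩ := hD e (rb d2) (hP.meas d2)
    rcases h with h | h
    · rcases h' with h' | h'
      · exact ⟨e', Or.inl ⟨(hP.le_iff _ _).2 (Set.Subset.trans (hP.mono he') h),
          (hP.le_iff _ _).2 h'⟩, he'.trans he⟩
      · exact ⟨e', Or.inr (Or.inr h'), he'.trans he⟩
    · exact ⟨e, Or.inr (Or.inl h), he⟩
  · rename_i A
    by_cases hA : MeasurableSet A
    · obtain ⟨e, he, h⟩ := hD q A hA
      exact ⟨e, fun _ => h, he⟩
    · exact ⟨q, fun h => (hA h).elim, le_rfl⟩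
  · rename_i a
    obtain ⟨e, he, h⟩ := read hA1 hA3 hP hD hBR hio a q
    exact ⟨e, h, he⟩
  · exact ⟨q, Set.mem_univ _, le_rfl⟩

/-! ### Lists of names -/

/-- The list of objects of an assignment. -/
noncomputable def lst (s : ℕ → BSet B) (n : ℕ) : List (Obj B P Z X) :=
  (List.range n).map (fun i => Obj.nm (s i))

theorem asg_lst (s : ℕ → BSet B) (n i : ℕ) (h : i < n) :
    asg (lst (P := P) (Z := Z) (X := X) s n) i = s i := by
  simp [asg, lst, h]

theorem mem_lst {s : ℕ → BSet B} {n : ℕ} {x : Obj B P Z X} (h : x ∈ lst s n) :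
    ∃ i, x = Obj.nm (s i) := by
  simp only [lst, List.mem_map] at h
  obtain ⟨i, _, rfl⟩ := h
  exact ⟨i, rfl⟩

theorem val_asg (φ : Fml) (s : ℕ → BSet B) :
    φ.val s = φ.val (asg (lst (P := P) (Z := Z) (X := X) s φ.bd)) :=
  φ.val_congr _ _ fun i hi => (asg_lst s _ i hi).symm

theorem val_asg_update (φ : Fml) (s : ℕ → BSet B) (i : ℕ) (a : BSet B) :
    φ.val (Function.update s i a) =
      φ.val (Function.update (asg (lst (P := P) (Z := Z) (X := X) s φ.bd)) i a) := by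
  apply φ.val_congr
  intro j hj
  by_cases h : j = i
  · subst h; simp
  · rw [Function.update_of_ne h, Function.update_of_ne h, asg_lst s _ j hj]

/-! ### The hull -/

/-- The data of the countable hull together with the generic point. -/
structure HullProp (rb : P → Set Z) (io : P → B) (xop : ℕ → List (Obj B P Z X) → Obj B P Z X)
    (xtask : ℕ → List (Obj B P Z X) → Set P) (H : Set (Obj B P Z X)) (g : Z) : Prop where
  cnt : H.Countable
  om_mem : Obj.nm (om B) ∈ H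
  nn_mem : ∀ n, Obj.nm (nn B n) ∈ H
  fm_mem : ∀ φ, Obj.fm φ ∈ H
  nt_mem : ∀ n, Obj.nt n ∈ H
  clb : ∀ i l, (∀ x ∈ l, x ∈ H) → boper rb io i l ∈ H
  cl : ∀ i l, (∀ x ∈ l, x ∈ H) → xop i l ∈ H
  meetb : ∀ i l, (∀ x ∈ l, x ∈ H) → ∃ d, Obj.cd d ∈ H ∧ d ∈ btask rb io i l ∧ g ∈ rb d
  meet : ∀ i l, (∀ x ∈ l, x ∈ H) → ∃ d, Obj.cd d ∈ H ∧ d ∈ xtask i l ∧ g ∈ rb d

theorem exists_hull (hP : IsPF rb) (hD : Dec rb) (hBR : BR rb) (hG : Gpl rb) (hA1 : A1Stmt)
    (hA3 : A3Stmt) (hio : IsDenseEmb io) (xop : ℕ → List (Obj B P Z X) → Obj B P Z X)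
    (xtask : ℕ → List (Obj B P Z X) → Set P)
    (hop : ∀ i l, ∀ d ∈ xtask i l, ∀ e ≤ d, e ∈ xtask i l)
    (hden : ∀ i l, ∀ q, ∃ d ∈ xtask i l, d ≤ q) (p : P) (W0 : Set (Obj B P Z X))
    (hW0 : W0.Countable) :
    ∃ H g, HullProp rb io xop xtask H g ∧ W0 ⊆ H ∧ Obj.cd p ∈ H ∧ g ∈ rb p := by
  obtain ⟨H, h1, h2, hpH, h3, g, hg, h4⟩ := hG (Obj B P Z X) Obj.cd
    (fun _ _ h => by cases h; rfl) (oper rb io xop) (task rb io xtask)
    (by
      intro i l d hd e he
      unfold task at hd ⊢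
      split_ifs at hd ⊢ with hi
      · exact btask_open hP hio _ _ d hd e he
      · exact hop _ _ d hd e he)
    (by
      intro i l q
      unfold task
      split_ifs with hi
      · exact btask_dense hP hD hBR hA1 hA3 hio _ _ q
      · exact hden _ _ q) p
    (W0 ∪ ({Obj.nm (om B)} ∪
      ((Set.range fun n => Obj.nm (nn B n)) ∪ (Set.range Obj.fm ∪ Set.range Obj.nt))))
    (hW0.union ((Set.countable_singleton _).union ((Set.countable_range _).union
      ((Set.countable_range _).union (Set.countable_range _)))))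
  refine ⟨H, g, ⟨h2, ?_, ?_, ?_, ?_, ?_, ?_, ?_, ?_⟩, fun x hx => h1 (Or.inl hx), hpH, hg⟩
  · exact h1 (Or.inr (Or.inl rfl))
  · exact fun n => h1 (Or.inr (Or.inr (Or.inl ⟨n, rfl⟩)))
  · exact fun φ => h1 (Or.inr (Or.inr (Or.inr (Or.inl ⟨φ, rfl⟩))))
  · exact fun n => h1 (Or.inr (Or.inr (Or.inr (Or.inr ⟨n, rfl⟩))))
  · intro i l hl
    have h := h3 (2 * i) l hl
    have e1 : (2 * i) % 2 = 0 := by omega
    have e2 : (2 * i) / 2 = i := by omega
    simpa only [oper, e1, e2, if_true] using h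
  · intro i l hl
    have h := h3 (2 * i + 1) l hl
    have e1 : ¬ (2 * i + 1) % 2 = 0 := by omega
    have e2 : (2 * i + 1) / 2 = i := by omega
    simpa only [oper, e1, e2, if_false] using h
  · intro i l hl
    obtain ⟨d, hd1, hd2, hd3⟩ := h4 (2 * i) l hl
    have e1 : (2 * i) % 2 = 0 := by omega
    have e2 : (2 * i) / 2 = i := by omega
    simp only [task, e1, e2, if_true] at hd2
    exact ⟨d, hd1, hd2, hd3⟩
  · intro i l hl
    obtain ⟨d, hd1, hd2, hd3⟩ := h4 (2 * i + 1) l hl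
    have e1 : ¬ (2 * i + 1) % 2 = 0 := by omega
    have e2 : (2 * i + 1) / 2 = i := by omega
    simp only [task, e1, e2, if_false] at hd2
    exact ⟨d, hd1, hd2, hd3⟩

/-- Conditions of the hull containing the generic point. -/
def CC (rb : P → Set Z) (H : Set (Obj B P Z X)) (g : Z) : Set P := {d | Obj.cd d ∈ H ∧ g ∈ rb d}

/-- True Boolean values. -/
def GG (rb : P → Set Z) (io : P → B) (H : Set (Obj B P Z X)) (g : Z) : Set B :=
  {b | ∃ d ∈ CC rb H g, io d ≤ b}

variable {xop : ℕ → List (Obj B P Z X) → Obj B P Z X}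
  {xtask : ℕ → List (Obj B P Z X) → Set P} {H : Set (Obj B P Z X)} {g : Z}

theorem mem1 {a : Obj B P Z X} (ha : a ∈ H) : ∀ x ∈ [a], x ∈ H := by
  intro x hx
  simp only [List.mem_cons, List.not_mem_nil, or_false] at hx
  rw [hx]; exact ha

theorem memc {a : Obj B P Z X} {l : List (Obj B P Z X)} (ha : a ∈ H) (hl : ∀ x ∈ l, x ∈ H) :
    ∀ x ∈ a :: l, x ∈ H := by
  intro x hx
  rcases List.mem_cons.1 hx with rfl | hx
  · exact ha
  · exact hl x hx

theorem mem2 {a b : Obj B P Z X} (ha : a ∈ H) (hb : b ∈ H) : ∀ x ∈ [a, b], x ∈ H :=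
  memc ha (mem1 hb)

theorem mem3 {a b c : Obj B P Z X} (ha : a ∈ H) (hb : b ∈ H) (hc : c ∈ H) :
    ∀ x ∈ [a, b, c], x ∈ H := memc ha (mem2 hb hc)

namespace HullProp

variable (h : HullProp rb io xop xtask H g)
include h

/-- The extra dense sets are met. -/
theorem meet' (i : ℕ) (l : List (Obj B P Z X)) (hl : ∀ x ∈ l, x ∈ H) :
    ∃ d ∈ CC rb H g, d ∈ xtask i l := by
  obtain ⟨d, h1, h2, h3⟩ := h.meet i l hl
  exact ⟨d, ⟨h1, h3⟩, h2⟩

theorem cpt {d1 d2 : P} (h1 : d1 ∈ CC rb H g)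
    (h2 : d2 ∈ CC rb H g) : ∃ e ∈ CC rb H g, e ≤ d1 ∧ e ≤ d2 := by
  obtain ⟨e, he, ht, hg⟩ := h.meetb 3 [.cd d1, .cd d2] (mem2 h1.1 h2.1)
  refine ⟨e, ⟨he, hg⟩, ?_⟩
  rcases ht with ht | ht | ht
  · exact ht
  · exact (ht hg h1.2).elim
  · exact (ht hg h2.2).elim

omit h in
theorem up {b c : B} (hb : b ∈ GG rb io H g) (hbc : b ≤ c) : c ∈ GG rb io H g := by
  obtain ⟨d, hd, hdb⟩ := hb
  exact ⟨d, hd, hdb.trans hbc⟩

theorem inf (hio : IsDenseEmb io) {b c : B}
    (hb : b ∈ GG rb io H g) (hc : c ∈ GG rb io H g) : b ⊓ c ∈ GG rb io H g := by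
  obtain ⟨d, hd, hdb⟩ := hb
  obtain ⟨e, he, hec⟩ := hc
  obtain ⟨r, hr, h1, h2⟩ := h.cpt hd he
  exact ⟨r, hr, le_inf ((hio.mono _ _ h1).trans hdb) ((hio.mono _ _ h2).trans hec)⟩

omit h in
theorem bot (hio : IsDenseEmb io) : ⊥ ∉ GG rb io H g := by
  rintro ⟨d, _, hd⟩
  exact hio.ne_bot d (le_bot_iff.1 hd)

theorem not_both (hio : IsDenseEmb io) {b : B}
    (hb : b ∈ GG rb io H g) (hc : bᶜ ∈ GG rb io H g) : False := by
  apply bot (rb := rb) (H := H) (g := g) (Z := Z) (X := X) hio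
  have := h.inf hio hb hc
  rwa [inf_compl_self] at this

theorem dec (φ : Fml) (s : ℕ → BSet B)
    (hs : ∀ i, Obj.nm (s i) ∈ H) : φ.val s ∈ GG rb io H g ∨ (φ.val s)ᶜ ∈ GG rb io H g := by
  have hl : ∀ x ∈ (Obj.fm φ :: lst s φ.bd), x ∈ H := by
    refine memc (h.fm_mem φ) ?_
    intro x hx
    obtain ⟨i, rfl⟩ := mem_lst hx
    exact hs i
  obtain ⟨d, hd, ht, hg⟩ := h.meetb 0 (Obj.fm φ :: lst s φ.bd) hl
  rw [val_asg (P := P) (Z := Z) (X := X)]
  rcases ht with ht | ht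
  · exact Or.inl ⟨d, ⟨hd, hg⟩, ht⟩
  · exact Or.inr ⟨d, ⟨hd, hg⟩, ht⟩

theorem wit (hio : IsDenseEmb io) (φ : Fml)
    (s : ℕ → BSet B) (i : ℕ) (hs : ∀ i, Obj.nm (s i) ∈ H)
    (hsup : (⨆ a : BSet B, φ.val (Function.update s i a)) ∈ GG rb io H g) :
    ∃ a, Obj.nm a ∈ H ∧ φ.val (Function.update s i a) ∈ GG rb io H g := by
  have hl0 : ∀ x ∈ (lst s φ.bd : List (Obj B P Z X)), x ∈ H := by
    intro x hx
    obtain ⟨i, rfl⟩ := mem_lst hx
    exact hs i
  have hl : ∀ x ∈ (Obj.fm φ :: Obj.nt i :: lst s φ.bd), x ∈ H :=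
    memc (h.fm_mem φ) (memc (h.nt_mem i) hl0)
  obtain ⟨d, hd, ht, hg⟩ := h.meetb 1 (Obj.fm φ :: Obj.nt i :: lst s φ.bd) hl
  have hsup' : (⨆ a : BSet B, φ.val (Function.update
      (asg (lst (P := P) (Z := Z) (X := X) s φ.bd)) i a)) ∈ GG rb io H g := by
    simpa only [val_asg_update (P := P) (Z := Z) (X := X) φ s i] using hsup
  rcases ht with ht | ht
  · exact (h.not_both hio hsup' ⟨d, ⟨hd, hg⟩, ht⟩).elim
  · have hcl := h.clb 1 (Obj.cd d :: Obj.fm φ :: Obj.nt i :: lst s φ.bd) (memc hd hl)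
    have : boper rb io 1 (Obj.cd d :: Obj.fm φ :: Obj.nt i ::
        (lst s φ.bd : List (Obj B P Z X))) = Obj.nm ht.choose := by
      simp only [boper, dif_pos ht]
    rw [this] at hcl
    refine ⟨_, hcl, ?_⟩
    rw [val_asg_update (P := P) (Z := Z) (X := X)]
    exact ⟨d, ⟨hd, hg⟩, ht.choose_spec⟩

theorem std (hio : IsDenseEmb io) {a : BSet B}
    (ha : Obj.nm a ∈ H) (hm : bmem a (om B) ∈ GG rb io H g) :
    ∃ n, beq a (nn B n) ∈ GG rb io H g := by
  obtain ⟨d, hd, ht, hg⟩ := h.meetb 2 [.nm a] (mem1 ha)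
  rcases ht with ht | ⟨n, ht⟩
  · exact (h.not_both hio hm ⟨d, ⟨hd, hg⟩, ht⟩).elim
  · exact ⟨n, d, ⟨hd, hg⟩, ht⟩

/-- Evaluation of measurable sets at the generic point. -/
theorem eval {A : Set Z} (hA : MeasurableSet A)
    (hm : Obj.ms A ∈ H) (hg : g ∈ A) : ∃ d ∈ CC rb H g, rb d ⊆ A := by
  obtain ⟨d, hd, ht, hgd⟩ := h.meetb 4 [.ms A] (mem1 hm)
  rcases ht hA with ht | ht
  · exact ⟨d, ⟨hd, hgd⟩, ht⟩
  · exact (ht hgd hg).elim

theorem hh_iff (hP : IsPF rb) (hD : Dec rb) (hio : IsDenseEmb io)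
    {A : Set Z} (hA : MeasurableSet A) (hm : Obj.ms A ∈ H) :
    hh rb io A ∈ GG rb io H g ↔ g ∈ A := by
  constructor
  · intro hG
    obtain ⟨d, hd, ht, hgd⟩ := h.meetb 4 [.ms A] (mem1 hm)
    rcases ht hA with ht | ht
    · exact ht hgd
    · exfalso
      apply h.not_both hio hG
      refine ⟨d, ⟨hd, hgd⟩, ?_⟩
      rw [← hh_compl hP hD hio A hA]
      exact le_hh ht
  · intro hg
    obtain ⟨d, hd, ht⟩ := h.eval hA hm hg
    exact ⟨d, hd, le_hh ht⟩

end HullProp

open Classical in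
/-- The operations choosing a witness of the relations `xrel`. -/
noncomputable def relOp (xrel : ℕ → List (Obj B P Z X) → Obj B P Z X → Prop) (i : ℕ)
    (l : List (Obj B P Z X)) : Obj B P Z X :=
  if h : ∃ y, xrel i l y then h.choose else .nt 0

theorem HullProp.clr {xrel : ℕ → List (Obj B P Z X) → Obj B P Z X → Prop}
    (h : HullProp rb io (relOp xrel) xtask H g) (i : ℕ) {l : List (Obj B P Z X)}
    (hl : ∀ x ∈ l, x ∈ H) (hex : ∃ y, xrel i l y) : ∃ y ∈ H, xrel i l y := by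
  refine ⟨_, h.cl i l hl, ?_⟩
  rw [relOp, dif_pos hex]
  exact hex.choose_spec

theorem num_unique {M : Type*} {E : M → M → Prop} (hZ : IsZFC E) (n : ℕ) :
    ∀ x x', IsNum E n x → IsNum E n x' → x = x' := by
  induction n with
  | zero =>
    intro x x' h h'
    apply hZ.ext
    intro c
    exact ⟨fun hc => (h c hc).elim, fun hc => (h' c hc).elim⟩
  | succ n ih =>
    intro x x' h h'
    obtain ⟨y, hy, h1⟩ := h
    obtain ⟨y', hy', h2⟩ := h'
    have := ih y y' hy hy'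
    subst this
    apply hZ.ext
    intro c
    rw [h1, h2]

/-- The model obtained from the hull. -/
structure ModelProp (rb : P → Set Z) (io : P → B) (H : Set (Obj B P Z X)) (g : Z) {M : Type}
    (E : M → M → Prop) (π : BSet B → M) : Prop where
  zfc : IsZFC E
  std : OmegaStd E
  surj : ∀ m : M, ∃ a, Obj.nm a ∈ H ∧ π a = m
  eqi : ∀ a b, Obj.nm a ∈ H → Obj.nm b ∈ H → (π a = π b ↔ beq a b ∈ GG rb io H g)
  memi : ∀ a b, Obj.nm a ∈ H → Obj.nm b ∈ H → (E (π a) (π b) ↔ bmem a b ∈ GG rb io H g)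
  num : ∀ n, IsNum E n (π (nn B n))

theorem exists_model (hM : ModelStatement) (hio : IsDenseEmb io)
    (h : HullProp rb io xop xtask H g) :
    ∃ (M : Type) (E : M → M → Prop) (π : BSet B → M), ModelProp rb io H g E π := by
  have hinj : Function.Injective (Obj.nm : BSet B → Obj B P Z X) := fun _ _ h => by cases h; rfl
  have hcnt : {a : BSet B | Obj.nm a ∈ H}.Countable := h.cnt.preimage hinj
  obtain ⟨M, E, π, h1, h2, h3, h4, h5, h6⟩ := hM B {a | Obj.nm a ∈ H} (GG rb io H g) hcnt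
    h.om_mem h.nn_mem (fun b hb c hbc => HullProp.up hb hbc)
    (fun b hb c hc => h.inf hio hb hc) (HullProp.bot hio)
    (fun φ s hs => h.dec φ s hs) (fun φ s i hs hsup => h.wit hio φ s i hs hsup)
    (fun a ha hm => h.std hio ha hm)
  exact ⟨M, E, π, h1, h2, h3, fun a b ha hb => h4 a ha b hb, fun a b ha hb => h5 a ha b hb, h6⟩

variable {M : Type} {E : M → M → Prop} {π : BSet B → M}

namespace ModelProp
variable (m : ModelProp rb io H g E π) (h : HullProp rb io xop xtask H g)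
include m

omit h in
theorem codes_unique {a : M} {S S' : Set ℕ}
    (h : Codes E a S) (h' : Codes E a S') : S = S' := by
  ext n
  rw [← h.2 n _ (m.num n), ← h'.2 n _ (m.num n)]

include h

theorem codes_codeN (hA3 : A3Stmt) (hP : IsPF rb) (hD : Dec rb) (hio : IsDenseEmb io)
    {S : Z → Set ℕ} (hS : Measurable S) (hSm : Obj.sf S ∈ H) :
    Obj.nm (codeN rb io S) ∈ H ∧ Codes E (π (codeN rb io S)) (S g) := by
  have hc : Obj.nm (codeN rb io S) ∈ H := h.clb 0 [.sf S] (mem1 hSm)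
  refine ⟨hc, ?_, ?_⟩
  · intro x hx
    obtain ⟨a, ha, rfl⟩ := m.surj x
    rw [m.memi _ _ ha hc] at hx
    have h5 := (hA3 B).2.2.2.2
    have hom : bmem a (om B) ∈ GG rb io H g := by
      refine HullProp.up hx ?_
      have e1 : bmem a (om B) = ⨆ n, ⊤ ⊓ beq a (nn B n) := h5 _ a
      have e2 : bmem a (codeN rb io S) = ⨆ n, hh rb io {y | n ∈ S y} ⊓ beq a (nn B n) := h5 _ a
      rw [e1, e2]
      exact iSup_mono fun n => inf_le_inf_right _ le_top
    obtain ⟨n, hn⟩ := h.std hio ha hom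
    rw [← m.eqi _ _ ha (h.nn_mem n)] at hn
    exact ⟨n, by rw [hn]; exact m.num n⟩
  · intro n x hx
    have hx' : x = π (nn B n) := num_unique m.zfc n _ _ hx (m.num n)
    rw [hx', m.memi _ _ (h.nn_mem n) hc]
    have e2 : bmem (nn B n) (codeN rb io S) = hh rb io {y | n ∈ S y} := (hA3 B).2.2.2.1 _ n
    rw [e2]
    have hms : Obj.ms {y | n ∈ S y} ∈ H := h.clb 3 [.sf S, .nt n] (mem2 hSm (h.nt_mem n))
    have hmeas : MeasurableSet {y | n ∈ S y} := by
      have := measurableSet_setOfPred.2 ((measurable_set_iff.1 hS) n)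
      exact this
    exact h.hh_iff hP hD hio hmeas hms

/-- Reading of an element of the model which is a set of natural numbers. -/
theorem read (hA3 : A3Stmt) (hP : IsPF rb) (hD : Dec rb) (hio : IsDenseEmb io) {a : BSet B}
    (ha : Obj.nm a ∈ H) {S0 : Set ℕ} (hc : Codes E (π a) S0) :
    ∃ S, Obj.sf S ∈ H ∧ Measurable S ∧ S g = S0 ∧
      ∃ e ∈ CC rb H g, io e ≤ beq a (codeN rb io S) := by
  obtain ⟨e, he, ht, hg⟩ := h.meetb 5 [.nm a] (mem1 ha)
  rcases ht with ht | ht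
  · have hcl := h.clb 2 [.cd e, .nm a] (mem2 he ha)
    have : boper rb io 2 [.cd e, (.nm a : Obj B P Z X)] = Obj.sf ht.choose := by
      simp only [boper, dif_pos ht]
    rw [this] at hcl
    obtain ⟨hS1, hS2⟩ := ht.choose_spec
    obtain ⟨hc1, hc2⟩ := m.codes_codeN h hA3 hP hD hio hS1 hcl
    refine ⟨_, hcl, hS1, ?_, e, ⟨he, hg⟩, hS2⟩
    have heq : π a = π (codeN rb io ht.choose) := (m.eqi _ _ ha hc1).2 ⟨e, ⟨he, hg⟩, hS2⟩
    rw [heq] at hc
    exact m.codes_unique hc2 hc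
  · exfalso
    -- the formula every element of a is a natural number
    let φ : Fml := .all 0 (.imp (.mem 0 1) (.mem 0 2))
    let s : ℕ → BSet B := fun i => if i = 1 then a else om B
    have hs : ∀ i, Obj.nm (s i) ∈ H := by
      intro i
      simp only [s]
      split_ifs
      · exact ha
      · exact h.om_mem
    have hφ : φ.val s = subOm a := by
      simp [φ, s, Fml.val, subOm]
    have hsub : (subOm a)ᶜ ∈ GG rb io H g := ⟨e, ⟨he, hg⟩, ht⟩
    -- witness
    let ψ : Fml := .imp (.imp (.mem 0 1) (.mem 0 2)) .bot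
    have hψ : ∀ x : BSet B, ψ.val (Function.update s 0 x) = (bmem x a ⇨ bmem x (om B))ᶜ := by
      intro x
      simp [ψ, s, Fml.val, himp_bot]
    have hsup : (⨆ x : BSet B, ψ.val (Function.update s 0 x)) ∈ GG rb io H g := by
      simp only [hψ]
      rw [← compl_iInf]
      exact hsub
    obtain ⟨x, hx, hxG⟩ := h.wit hio ψ s 0 hs hsup
    rw [hψ] at hxG
    -- `x ∈ a` is true
    have h1 : bmem x a ∈ GG rb io H g := by
      refine HullProp.up hxG ?_
      rw [himp_eq, compl_sup, compl_compl]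
      exact inf_le_right
    have h2 : (bmem x (om B))ᶜ ∈ GG rb io H g := by
      refine HullProp.up hxG ?_
      rw [himp_eq, compl_sup]
      exact inf_le_left
    rw [← m.memi _ _ hx ha] at h1
    obtain ⟨n, hn⟩ := hc.1 _ h1
    have hx' : π x = π (nn B n) := num_unique m.zfc n _ _ hn (m.num n)
    rw [m.eqi _ _ hx (h.nn_mem n)] at hx'
    have h3 : bmem x (om B) ∈ GG rb io H g := by
      refine HullProp.up hx' ?_
      have e1 : bmem x (om B) = ⨆ n, ⊤ ⊓ beq x (nn B n) := (hA3 B).2.2.2.2 _ x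
      rw [e1]
      exact le_iSup_of_le n (by simp)
    exact h.not_both hio h3 h2

/-! ### Pairs -/

theorem mem_upair (hio : IsDenseEmb io) {a b : BSet B} (ha : Obj.nm a ∈ H) (hb : Obj.nm b ∈ H) :
    Obj.nm (upair a b) ∈ H ∧ ∀ w, E w (π (upair a b)) ↔ w = π a ∨ w = π b := by
  have hc : Obj.nm (upair a b) ∈ H := h.clb 4 [.nm a, .nm b] (mem2 ha hb)
  refine ⟨hc, fun w => ?_⟩
  obtain ⟨x, hx, rfl⟩ := m.surj w
  rw [m.memi _ _ hx hc, m.eqi _ _ hx ha, m.eqi _ _ hx hb, bmem_upair]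
  constructor
  · intro hG
    by_contra hcon
    push Not at hcon
    obtain ⟨h1, h2⟩ := hcon
    have key : ∀ y : BSet B, Obj.nm y ∈ H → beq x y ∉ GG rb io H g →
        (beq x y)ᶜ ∈ GG rb io H g := by
      intro y hy hn
      let s : ℕ → BSet B := fun i => if i = 0 then x else y
      have hs : ∀ i, Obj.nm (s i) ∈ H := by
        intro i
        simp only [s]
        split_ifs
        · exact hx
        · exact hy
      rcases h.dec (.eq 0 1) s hs with h3 | h3
      · exact (hn (by simpa [Fml.val, s] using h3)).elim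
      · simpa [Fml.val, s] using h3
    have h3 := h.inf hio (key a ha h1) (key b hb h2)
    rw [← compl_sup] at h3
    exact h.not_both hio hG h3
  · rintro (hG | hG)
    · exact HullProp.up hG le_sup_left
    · exact HullProp.up hG le_sup_right

end ModelProp

end

end Pool.Agent.GF
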