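import Pool.Agent.Helper25_FL.C3

/-!
# General forcing library, part 1: names of measurable objects

`P` is a preorder whose elements are described by measurable sets `rb p` of points in a measurable
space `Z`.
-/

set_option linter.unusedSectionVars false

open MeasureTheory Set

namespace Pool.Agent.GF

open Pool.Agent.FL (BSet beq bmem Fml nn sb om IsZFC IsNum OmegaStd Codes IsDenseEmb A1Stmt A3Stmt
  cutS)

variable {P : Type} [Preorder P] {Z : Type} [MeasurableSpace Z]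

/-- Conditions are described by nonempty measurable sets. -/
structure IsPF (rb : P → Set Z) : Prop where
  meas : ∀ p, MeasurableSet (rb p)
  ne : ∀ p, (rb p).Nonempty
  le_iff : ∀ p q : P, p ≤ q ↔ rb p ⊆ rb q

/-- Measurable sets are decided. -/
def Dec (rb : P → Set Z) : Prop :=
  ∀ (p : P) (A : Set Z), MeasurableSet A → ∃ q ≤ p, rb q ⊆ A ∨ rb q ⊆ Aᶜ

/-- Countably many dense open sets are met by countable sets. -/
def BR (rb : P → Set Z) : Prop :=
  ∀ (r : P) (D : ℕ → Set P), (∀ i, ∀ d ∈ D i, ∀ e ≤ d, e ∈ D i) →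
    (∀ i, ∀ q ≤ r, ∃ d ∈ D i, d ≤ q) →
    ∃ r' ≤ r, ∀ i, ∃ E : Set P, E.Countable ∧ E ⊆ D i ∧ rb r' ⊆ ⋃ d ∈ E, rb d

/-- Generic point over a countable hull. -/
def Gpl (rb : P → Set Z) : Prop :=
  ∀ (W : Type 1) (cd : P → W), Function.Injective cd →
    ∀ (ops : ℕ → List W → W) (D : ℕ → List W → Set P),
    (∀ i l, ∀ d ∈ D i l, ∀ e ≤ d, e ∈ D i l) → (∀ i l, ∀ q, ∃ d ∈ D i l, d ≤ q) →
    ∀ (p : P) (W0 : Set W), W0.Countable →
    ∃ H : Set W, W0 ⊆ H ∧ H.Countable ∧ cd p ∈ H ∧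
      (∀ i l, (∀ x ∈ l, x ∈ H) → ops i l ∈ H) ∧
      ∃ g ∈ rb p, ∀ i l, (∀ x ∈ l, x ∈ H) → ∃ d, cd d ∈ H ∧ d ∈ D i l ∧ g ∈ rb d

section
variable {B : Type} [CompleteBooleanAlgebra B]

/-- Boolean value of the statement that the generic point belongs to `A`. -/
noncomputable def hh (rb : P → Set Z) (io : P → B) (A : Set Z) : B :=
  ⨆ p : {p : P // rb p ⊆ A}, io p.1

/-- The name of the set of natural numbers `S (generic point)`. -/
noncomputable def codeN (rb : P → Set Z) (io : P → B) (S : Z → Set ℕ) : BSet B :=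
  sb (fun n => hh rb io {y | n ∈ S y})

variable {rb : P → Set Z} {io : P → B}

open FL.H25 (le_iff_dense le_compl_iff_forall exists_decide inf_iSup_ne le_beq_sb)

theorem IsPF.mono (hP : IsPF rb) {p q : P} (h : p ≤ q) : rb p ⊆ rb q := (hP.le_iff p q).1 h

theorem IsPF.incompat (hP : IsPF rb) {p : P} {A : Set Z} (h1 : rb p ⊆ A) (h2 : rb p ⊆ Aᶜ) :
    False := by
  obtain ⟨y, hy⟩ := hP.ne p
  exact h2 hy (h1 hy)

theorem disj_hh (hP : IsPF rb) (hio : IsDenseEmb io) {p : P} {A : Set Z} (h : rb p ⊆ Aᶜ) :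
    io p ⊓ hh rb io A = ⊥ := by
  by_contra hcon
  obtain ⟨⟨r, hr⟩, h1⟩ := inf_iSup_ne hcon
  obtain ⟨s, hsp, hsr⟩ := hio.compat p r h1
  exact hP.incompat ((hP.mono hsr).trans hr) ((hP.mono hsp).trans h)

theorem le_hh {p : P} {A : Set Z} (h : rb p ⊆ A) : io p ≤ hh rb io A :=
  le_iSup (fun q : {q : P // rb q ⊆ A} => io q.1) ⟨p, h⟩

theorem le_hh_iff (hP : IsPF rb) (hD : Dec rb) (hio : IsDenseEmb io) (p : P) (A : Set Z)
    (hA : MeasurableSet A) : io p ≤ hh rb io A ↔ ∀ q ≤ p, ¬ rb q ⊆ Aᶜ := by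
  constructor
  · intro h q hq hqA
    have h1 := disj_hh hP hio hqA
    have h2 : io q ≤ hh rb io A := (hio.mono q p hq).trans h
    rw [inf_eq_left.2 h2] at h1
    exact hio.ne_bot q h1
  · intro h
    rw [le_iff_dense hio]
    intro q hq
    obtain ⟨r, hr, hrA⟩ := hD q A hA
    rcases hrA with hrA | hrA
    · exact ⟨r, hr, le_hh hrA⟩
    · exact absurd hrA (h r (hr.trans hq))

theorem exists_sub (hP : IsPF rb) (hD : Dec rb) (hio : IsDenseEmb io) (p : P) (A : Set Z)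
    (hA : MeasurableSet A) (h : io p ≤ hh rb io A) : ∃ q ≤ p, rb q ⊆ A := by
  obtain ⟨q, hq, hqA⟩ := hD p A hA
  rcases hqA with hqA | hqA
  · exact ⟨q, hq, hqA⟩
  · exact absurd hqA ((le_hh_iff hP hD hio p A hA).1 h q hq)

theorem hh_compl (hP : IsPF rb) (hD : Dec rb) (hio : IsDenseEmb io) (A : Set Z)
    (hA : MeasurableSet A) : hh rb io Aᶜ = (hh rb io A)ᶜ := by
  apply le_antisymm
  · refine iSup_le ?_
    rintro ⟨p, hp⟩
    exact (disjoint_iff.2 (disj_hh hP hio hp)).le_compl_right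
  · by_contra hcon
    have h1 : (hh rb io A)ᶜ ⊓ (hh rb io Aᶜ)ᶜ ≠ ⊥ := by
      intro h2
      exact hcon (disjoint_compl_right_iff.1 (disjoint_iff.2 h2))
    obtain ⟨q, hqb⟩ := hio.exists_le _ h1
    obtain ⟨r, hr, hrA⟩ := hD q A hA
    have h3 := (hio.mono r q hr).trans hqb
    rcases hrA with hrA | hrA
    · exact hio.ne_bot r (le_bot_iff.1 ((le_inf (le_hh hrA) (h3.trans inf_le_left)).trans
        (by simp)))
    · exact hio.ne_bot r (le_bot_iff.1 ((le_inf (le_hh hrA) (h3.trans inf_le_right)).trans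
        (by simp)))

theorem iSup_io (hio : IsDenseEmb io) : (⨆ p, io p) = ⊤ := by
  by_contra hcon
  have h1 : (⨆ p, io p)ᶜ ≠ ⊥ := fun h => hcon (compl_eq_bot.1 h)
  obtain ⟨q, hq⟩ := hio.exists_le _ h1
  exact hio.ne_bot q (le_bot_iff.1 ((le_inf (le_iSup io q) hq).trans (by simp)))

theorem hh_univ (hio : IsDenseEmb io) : hh rb io Set.univ = ⊤ := by
  rw [← top_le_iff, ← iSup_io hio]
  exact iSup_le fun p => le_hh (Set.subset_univ _)

theorem hh_empty (hP : IsPF rb) : hh rb io ∅ = ⊥ := by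
  unfold hh
  rw [iSup_eq_bot]
  rintro ⟨p, hp⟩
  obtain ⟨y, hy⟩ := hP.ne p
  exact (hp hy).elim

theorem inf_hh_le (hP : IsPF rb) (hio : IsDenseEmb io) (p : P) (A A' : Set Z)
    (h : rb p ∩ A ⊆ A') : io p ⊓ hh rb io A ≤ hh rb io A' := by
  by_contra hcon
  have h1 : (hh rb io A')ᶜ ⊓ io p ⊓ hh rb io A ≠ ⊥ := by
    intro h2
    apply hcon
    rw [inf_assoc, inf_comm] at h2
    exact disjoint_compl_right_iff.1 (disjoint_iff.2 h2)
  obtain ⟨⟨r, hr⟩, h2⟩ := inf_iSup_ne h1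
  obtain ⟨q, hq, hqb⟩ := hio.dense r _ h2
  have h3 : io p ⊓ io q ≠ ⊥ := by
    rw [inf_eq_right.2 (hqb.trans inf_le_right)]
    exact hio.ne_bot q
  obtain ⟨s, hsp, hsq⟩ := hio.compat p q h3
  have h4 : rb s ⊆ A' := fun y hy => h ⟨hP.mono hsp hy, hr (hP.mono hq (hP.mono hsq hy))⟩
  exact hio.ne_bot s (le_bot_iff.1 ((le_inf (le_hh h4)
    ((hio.mono s q hsq).trans (hqb.trans inf_le_left))).trans (by simp)))

/-- Equal readings give equal names. -/
theorem codeEq (h1 : A1Stmt) (hP : IsPF rb) (hio : IsDenseEmb io) (p : P) (S S' : Z → Set ℕ)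
    (h : ∀ y ∈ rb p, S y = S' y) : io p ≤ beq (codeN rb io S) (codeN rb io S') := by
  refine le_beq_sb h1 _ _ _ (fun n => ?_) (fun n => ?_)
  · refine inf_hh_le hP hio p _ _ ?_
    rintro y ⟨hy, hn⟩
    have hn' : n ∈ S y := hn
    rw [h y hy] at hn'
    exact hn'
  · refine inf_hh_le hP hio p _ _ ?_
    rintro y ⟨hy, hn⟩
    have hn' : n ∈ S' y := hn
    rw [← h y hy] at hn'
    exact hn'

/-- To show `io e ⊓ b ≤ c` find a contradiction below. -/
theorem inf_le_of (hio : IsDenseEmb io)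
    {e : P} {b c : B} (h : ∀ q ≤ e, io q ≤ b → io q ≤ cᶜ → False) : io e ⊓ b ≤ c := by
  by_contra hcon
  have h1 : (b ⊓ cᶜ) ⊓ io e ≠ ⊥ := by
    intro h2
    apply hcon
    rw [← compl_compl c, le_compl_iff_disjoint_right, disjoint_iff, ← h2]
    ac_rfl
  obtain ⟨q, hq, h2⟩ := hio.dense e _ h1
  exact h q hq (h2.trans inf_le_left) (h2.trans inf_le_right)

theorem not_both (hio : IsDenseEmb io) {p : P} {b : B} (h1 : io p ≤ b) (h2 : io p ≤ bᶜ) : False :=
  hio.ne_bot p (le_bot_iff.1 ((le_inf h1 h2).trans (inf_compl_self _).le))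

theorem dense_iSup (hio : IsDenseEmb io) {ι : Sort*} (f : ι → B) {d : P}
    (hle : io d ≤ ⨆ j, f j) : ∃ e ≤ d, ∃ j, io e ≤ f j := by
  have hne : (⨆ j, f j) ⊓ io d ≠ ⊥ := by
    rw [inf_eq_right.2 hle]
    exact hio.ne_bot d
  rw [iSup_inf_eq] at hne
  have : ∃ j, f j ⊓ io d ≠ ⊥ := by
    by_contra hcon
    push Not at hcon
    exact hne (iSup_eq_bot.2 hcon)
  obtain ⟨j, hj⟩ := this
  obtain ⟨e, he, hej⟩ := hio.dense _ _ hj
  exact ⟨e, he, j, hej⟩

/-- A condition inside a countable union of conditions has a stronger condition below one of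
them. -/
theorem exists_le_of_countable (hP : IsPF rb) (hD : Dec rb) (hBR : BR rb)
    {E : Set P} (hE : E.Countable) (q : P) (hq : rb q ⊆ ⋃ d ∈ E, rb d) :
    ∃ q' ≤ q, ∃ d ∈ E, q' ≤ d := by
  by_contra hcon
  push Not at hcon
  rcases E.eq_empty_or_nonempty with h0 | hne
  · subst h0
    obtain ⟨y, hy⟩ := hP.ne q
    have := hq hy
    simp at this
  obtain ⟨u, hu⟩ := hE.exists_eq_range hne
  obtain ⟨r, hr, h⟩ := hBR q (fun n => {d | rb d ⊆ (rb (u n))ᶜ})
    (fun i d hd e he => (hP.mono he).trans hd) (by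
      intro i q' hq'
      obtain ⟨d, hd, h | h⟩ := hD q' (rb (u i)) (hP.meas _)
      · exact absurd ((hP.le_iff _ _).2 h) (hcon d (hd.trans hq') (u i) (by rw [hu]; exact ⟨i, rfl⟩))
      · exact ⟨d, h, hd⟩)
  obtain ⟨y, hy⟩ := hP.ne r
  have h2 := hq (hP.mono hr hy)
  rw [Set.mem_iUnion₂] at h2
  obtain ⟨d, hd, hyd⟩ := h2
  rw [hu] at hd
  obtain ⟨n, rfl⟩ := hd
  obtain ⟨E', _, h3, h4⟩ := h n
  have h5 := h4 hy
  rw [Set.mem_iUnion₂] at h5
  obtain ⟨d', hd', hyd'⟩ := h5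
  exact h3 hd' hyd' hyd

/-- Reading of names of sets of natural numbers. -/
theorem read (h1 : A1Stmt) (h3 : A3Stmt) (hP : IsPF rb) (hD : Dec rb) (hBR : BR rb)
    (hio : IsDenseEmb io) (a : BSet B) (p : P) : ∃ e ≤ p,
      (∃ S : Z → Set ℕ, Measurable S ∧ io e ≤ beq a (codeN rb io S)) ∨
      io e ≤ (⨅ x : BSet B, (bmem x a ⇨ bmem x (om B)))ᶜ := by
  obtain ⟨a1, a2, a3, a4, a5, -, a7, -⟩ := h1 B
  obtain ⟨-, -, -, -, b5⟩ := h3 B
  obtain ⟨e0, he0, hcase⟩ := exists_decide hio p (⨅ x : BSet B, (bmem x a ⇨ bmem x (om B)))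
  rcases hcase with hcase | hcase
  swap
  · exact ⟨e0, he0, Or.inr hcase⟩
  let D : ℕ → Set P := fun n => {d | io d ≤ bmem (nn B n) a ∨ io d ≤ (bmem (nn B n) a)ᶜ}
  obtain ⟨e, he, hE⟩ := hBR e0 D
    (by
      intro i d hd d' hd'
      have h := hio.mono _ _ hd'
      rcases hd with h2 | h2
      · exact Or.inl (h.trans h2)
      · exact Or.inr (h.trans h2))
    (by
      intro i q hq
      obtain ⟨d, hd, h⟩ := exists_decide hio q (bmem (nn B i) a)
      exact ⟨d, h, hd⟩)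
  choose E hEfin hED hEcov using hE
  let S : Z → Set ℕ := fun y => {n | ∃ d ∈ E n, io d ≤ bmem (nn B n) a ∧ y ∈ rb d}
  have hSn : ∀ n, {y | n ∈ S y} = ⋃ d ∈ {d ∈ E n | io d ≤ bmem (nn B n) a}, rb d := by
    intro n
    ext y
    simp only [S, Set.mem_ofPred_eq, Set.mem_iUnion, exists_prop]
    constructor
    · rintro ⟨d, hd1, hd2, hd3⟩
      exact ⟨d, ⟨hd1, hd2⟩, hd3⟩
    · rintro ⟨d, ⟨hd1, hd2⟩, hd3⟩
      exact ⟨d, hd1, hd2, hd3⟩
  have hfin : ∀ n, {d ∈ E n | io d ≤ bmem (nn B n) a}.Countable := fun n =>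
    (hEfin n).mono (fun d hd => hd.1)
  have hmeas : ∀ n, MeasurableSet {y | n ∈ S y} := by
    intro n
    rw [hSn n]
    exact MeasurableSet.biUnion (hfin n) fun d _ => hP.meas d
  have hS : Measurable S := by
    rw [measurable_set_iff]
    intro n
    exact measurable_to_prop (by simpa [Set.preimage] using hmeas n)
  -- the two inclusions
  have k1 : ∀ n, io e ⊓ hh rb io {y | n ∈ S y} ≤ bmem (nn B n) a := by
    intro n
    refine inf_le_of hio ?_
    intro q hq h2 h3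
    obtain ⟨q', hq', h4⟩ := exists_sub hP hD hio q _ (hmeas n) h2
    rw [hSn n] at h4
    obtain ⟨q'', hq'', d, hd, h5⟩ := exists_le_of_countable hP hD hBR (hfin n) q' h4
    exact not_both hio ((hio.mono _ _ h5).trans hd.2)
      ((hio.mono _ _ (le_trans hq'' hq')).trans h3)
  have k2 : ∀ n, io e ⊓ bmem (nn B n) a ≤ hh rb io {y | n ∈ S y} := by
    intro n
    refine inf_le_of hio ?_
    intro q hq h2 h3
    obtain ⟨q', hq', d, hd, h5⟩ := exists_le_of_countable hP hD hBR (hEfin n) q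
      (fun y hy => hEcov n (hP.mono hq hy))
    have h6 := hED n hd
    rcases h6 with h6 | h6
    · have h7 : rb q' ⊆ {y | n ∈ S y} := fun y hy => ⟨d, hd, h6, hP.mono h5 hy⟩
      exact not_both hio (le_hh h7) ((hio.mono _ _ hq').trans h3)
    · exact not_both hio ((hio.mono _ _ hq').trans h2) ((hio.mono _ _ h5).trans h6)
  refine ⟨e, le_trans he he0, Or.inl ⟨S, hS, ?_⟩⟩
  refine le_trans ?_ (a7 a (codeN rb io S))
  refine le_iInf fun x => le_inf ?_ ?_
  · rw [le_himp_iff]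
    have h4 : io e ⊓ bmem x a ≤ bmem x (om B) := by
      rw [← le_himp_iff]
      exact ((hio.mono _ _ he).trans hcase).trans (iInf_le _ x)
    have h5 : io e ⊓ bmem x a ≤ (io e ⊓ bmem x a) ⊓ bmem x (om B) := le_inf le_rfl h4
    refine h5.trans ?_
    rw [om, b5, inf_iSup_eq]
    refine iSup_le fun n => ?_
    rw [codeN, b5]
    refine le_trans ?_ (le_iSup _ n)
    refine le_inf ?_ ((inf_le_right).trans inf_le_right)
    refine le_trans ?_ (k2 n)
    refine le_inf (inf_le_left.trans inf_le_left) ?_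
    refine le_trans ?_ (a4 x (nn B n) a)
    exact le_inf (inf_le_right.trans inf_le_right) (inf_le_left.trans inf_le_right)
  · rw [le_himp_iff, codeN, b5, inf_iSup_eq]
    refine iSup_le fun n => ?_
    refine le_trans ?_ (a4 (nn B n) x a)
    refine le_inf ?_ ?_
    · rw [a2]
      exact inf_le_right.trans inf_le_right
    · refine le_trans ?_ (k1 n)
      exact le_inf inf_le_left (inf_le_right.trans inf_le_left)

end

end Pool.Agent.GF
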