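import Pool.Agent.GEN.StmtsV
import Pool.Agent.GEN.DefsU

/-!
# Squad GEN: the row RVL in the form used by block U
-/

set_option autoImplicit false

namespace Pool.Agent.GEN

open MvPolynomial Finset Pool.Agent.Helper6_Mono Pool.Agent.Helper30_Simp
  Pool.Agent.Helper30_Simp2

/-- **Row RVG** (uses RVL): the strong generic root statement in the form used by block U -/
def RvgStmt : Prop :=
  ∀ (σ : Type) [Fintype σ] (M : Finset (σ →₀ ℕ)) (κ : σ → ℕ) (N : ℕ) (B : Finset (σ →₀ ℕ)),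
    0 < N → (∀ α ∈ M, N ≤ dot κ α) → B ⊆ M → B.Nonempty →
    (∀ α ∈ B, dot κ α = N) →
    (∀ t : B → ℤ, (∀ j, ∑ α, t α * (((α : σ →₀ ℕ) j : ℕ) : ℤ) = 0) → t = 0) →
    (∀ v : σ → ℚ, (∀ i, κ i = 0 → v i = 0) → (∀ α ∈ B, ∑ i, v i * (α i : ℚ) = 0) →
      ∑ i, v i = 0) →
    (∀ A ∈ B, ∀ j, κ j ≠ 0 → A j = 1 → (∀ β ∈ B, β ≠ A → β j = 0) →
      ∃ l, l ≠ j ∧ κ l ≠ 0 ∧ A l = 1 ∧ ∀ β ∈ B, β ≠ A → β l = 0) →
    ∀ (s₀ : ℚ), s₀ = -(((∑ i, κ i : ℕ) : ℚ) / (N : ℕ)) →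
    ∀ (a : MvPolynomial M ℚ) (P Q : List (Polynomial (MvPolynomial σ (MvPolynomial M ℚ)) × List σ))
      (n₀ : ℕ), (∀ n ≥ n₀, C a * genF M ^ n =
        (P.map fun aw => aw.1.eval (n : MvPolynomial σ (MvPolynomial M ℚ)) *
          dWordR aw.2 (genF M ^ (n + 1))).sum +
        C (C ((n : ℚ) - s₀)) *
          (Q.map fun aw => aw.1.eval (n : MvPolynomial σ (MvPolynomial M ℚ)) *
            dWordR aw.2 (genF M ^ n)).sum) → a = 0

namespace H93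

theorem rvg (h : RvlStmt) : RvgStmt := by
  intro σ _ M κ N B h1 h2 h3 h4 h5 h6 h7 h8 s₀ hs a P Q n₀ hn
  refine h σ M κ N B h1 h2 h3 h4 h5 h6 h7 h8 s₀ hs a P Q ⟨n₀, fun n hn' => ?_⟩
  have e1 : fgen M = genF M := rfl
  have e2 : (C ((n : MvPolynomial M ℚ) - algebraMap ℚ (MvPolynomial M ℚ) s₀) :
      MvPolynomial σ (MvPolynomial M ℚ)) = C (C ((n : ℚ) - s₀)) := by
    rw [MvPolynomial.algebraMap_eq, map_sub (C : ℚ →+* MvPolynomial M ℚ), map_natCast]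
  rw [e1, e2]
  unfold opR
  rw [hn n hn', add_comm]

end H93

end Pool.Agent.GEN
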